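import Pool.Agent.Helper55.KE.Step
import Pool.Agent.Helper48.AV.St

set_option autoImplicit false
set_option linter.unusedSectionVars false

/-!
# The averaging comparison

`Sum_W FF X W S - p NN X S + a nz X + b ns S` does not depend on `X` and `S`.
-/

namespace Helper11.AV

open Helper11.N1 Helper55.KE Helper48.AV
open Helper11.N1.DECaux (ind ite_ind ind_and ind_congr ind_pos ind_neg)

section circle

variable {M : ℕ} [NeZero M]

/-- one step of an arc indicator in the left end -/
theorem arc_step' (hM : 1 < M) (X y : ZMod M) {d : ℕ} (hd0 : 0 < d) (hd : d < M) :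
    ind (off (X + 1) y < d) - ind (off X y < d) =
      ind (y - (d : ZMod M) = X) - ind (y = X) := by
  have h2 : (y = X) ↔ off X y = 0 := by
    rw [off_eq_zero]
    exact eq_comm
  have h3 : (y - (d : ZMod M) = X) ↔ off X y = d := by
    rw [off_eq_iff X y hd, sub_eq_iff_eq_add]
  have h4 : off X (X + 1) = 1 := by
    have := off_nat X (n := 1) hM
    rwa [Nat.cast_one] at this
  have h5 := off_add X (X + 1) y
  have h6 := off_lt X y
  have h7 := off_lt (X + 1) y
  rw [ind_congr h2, ind_congr h3]
  generalize off X y = o at *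
  generalize off (X + 1) y = o' at *
  rw [← ite_ind (o < d), ← ite_ind (o' < d), ← ite_ind (o = 0), ← ite_ind (o = d)]
  split_ifs <;> omega

/-- the number of rows in an arc -/
theorem sum_val (t : ZMod M) {d : ℕ} (hd : d ≤ M) :
    ∑ W : ZMod M, ind ((W - t).val < d) = d := by
  have h := sum_arc (M := M) 0 (-t) hd
  rw [← h]
  apply Finset.sum_congr rfl
  intro W _
  apply ind_congr
  unfold off
  rw [sub_zero, sub_eq_add_neg]

end circle

section

variable {p q a b : ℕ} [NeZero p] [NeZero q]

noncomputable def T (q a b : ℕ) {p : ℕ} [NeZero p] (z : ZMod p → ZMod (p * q))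
    (X S : ZMod (p * q)) : ℤ :=
  ∑ W : ZMod p, FF q a b z X W S - p * NN q a b z X S + a * nz q b z X + b * ns q a z S

theorem T_x (hP : Par p q a b) (z : ZMod p → ZMod (p * q)) (X S : ZMod (p * q)) :
    T q a b z (X + 1) S = T q a b z X S := by
  classical
  have hM := one_lt_mul hP
  obtain ⟨haq, hbq, habq, h2a, h2b⟩ := lt_mul_of hP
  have hq1 := hP.hq
  have hab := hP.hab
  have h1 : ∑ W : ZMod p, FF q a b z (X + 1) W S - ∑ W : ZMod p, FF q a b z X W S =
      ∑ j : ZMod p, (ind (z j = X) * (a - p * ind (off (sc q z j + 1) S < a * q)) +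
        ind (z j - b * q = X) * (p * ind (off (sc q z j + 1) S < a * q) - a)) := by
    rw [← Finset.sum_sub_distrib, Finset.sum_congr rfl (fun W _ => xstep hP z X W S),
      Finset.sum_comm]
    apply Finset.sum_congr rfl
    intro j _
    rw [Finset.sum_add_distrib, ← Finset.mul_sum, ← Finset.mul_sum, Finset.sum_sub_distrib,
      Finset.sum_sub_distrib, Finset.sum_const, Finset.card_univ, ZMod.card, nsmul_eq_mul]
    have e1 : ∑ W : ZMod p, ind (aR a W j) = a := by
      rw [← sum_val (M := p) (1 + j) (d := a) (by omega)]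
      apply Finset.sum_congr rfl
      intro W _
      apply ind_congr
      unfold aR
      rw [show W - 1 - j = W - (1 + j) by ring]
    have e2 : ∑ W : ZMod p, ind (aL a b W j) = a := by
      rw [← sum_val (M := p) (b + 1 + j) (d := a) (by omega)]
      apply Finset.sum_congr rfl
      intro W _
      apply ind_congr
      unfold aL
      rw [show W - b - 1 - j = W - (b + 1 + j) by ring]
    rw [e1, e2]
  have h2 : NN q a b z (X + 1) S - NN q a b z X S = ∑ j : ZMod p,
      (ind (off (sc q z j + 1) S < a * q) * (ind (z j - b * q = X) - ind (z j = X))) := by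
    unfold NN
    rw [← Finset.sum_sub_distrib]
    apply Finset.sum_congr rfl
    intro j _
    unfold box
    rw [ite_ind, ite_ind, ind_and, ind_and, ← sub_mul]
    have h3 := arc_step' hM X (z j) (d := b * q) (by omega) hbq
    push_cast at h3
    rw [h3]
    ring
  have h3 : nz q b z (X + 1) - nz q b z X = ∑ j : ZMod p,
      (ind (z j - b * q = X) - ind (z j = X)) := by
    unfold nz
    rw [← Finset.sum_sub_distrib]
    apply Finset.sum_congr rfl
    intro j _
    rw [ite_ind, ite_ind]
    have h3 := arc_step' hM X (z j) (d := b * q) (by omega) hbq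
    push_cast at h3
    exact h3
  have h4 : T q a b z (X + 1) S - T q a b z X S =
      (∑ W : ZMod p, FF q a b z (X + 1) W S - ∑ W : ZMod p, FF q a b z X W S) -
        p * (NN q a b z (X + 1) S - NN q a b z X S) + a * (nz q b z (X + 1) - nz q b z X) := by
    unfold T
    ring
  have h5 : T q a b z (X + 1) S - T q a b z X S = 0 := by
    rw [h4, h1, h2, h3, Finset.mul_sum, Finset.mul_sum, ← Finset.sum_sub_distrib,
      ← Finset.sum_add_distrib]
    apply Finset.sum_eq_zero
    intro j _
    ring
  linarith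

theorem T_s (hP : Par p q a b) (z : ZMod p → ZMod (p * q)) (X S : ZMod (p * q)) :
    T q a b z X (S + 1) = T q a b z X S := by
  classical
  have hM := one_lt_mul hP
  obtain ⟨haq, hbq, habq, h2a, h2b⟩ := lt_mul_of hP
  have hq1 := hP.hq
  have hab := hP.hab
  have h1 : ∑ W : ZMod p, FF q a b z X W (S + 1) - ∑ W : ZMod p, FF q a b z X W S =
      ∑ j : ZMod p, (ind (sc q z j = S) * (p * ind (off X (z j) < b * q) - b) +
        ind (sc q z j + a * q = S) * (b - p * ind (off X (z j) < b * q))) := by
    rw [← Finset.sum_sub_distrib, Finset.sum_congr rfl (fun W _ => sstep hP z X W S),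
      Finset.sum_comm]
    apply Finset.sum_congr rfl
    intro j _
    rw [Finset.sum_add_distrib, ← Finset.mul_sum, ← Finset.mul_sum, Finset.sum_sub_distrib,
      Finset.sum_sub_distrib, Finset.sum_const, Finset.card_univ, ZMod.card, nsmul_eq_mul]
    have e1 : ∑ W : ZMod p, ind (aB b W j) = b := by
      rw [← sum_val (M := p) (1 + j) (d := b) (by omega)]
      apply Finset.sum_congr rfl
      intro W _
      apply ind_congr
      unfold aB
      rw [show W - 1 - j = W - (1 + j) by ring]
    have e2 : ∑ W : ZMod p, ind (aT a b W j) = b := by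
      rw [← sum_val (M := p) (a + 1 + j) (d := b) (by omega)]
      apply Finset.sum_congr rfl
      intro W _
      apply ind_congr
      unfold aT
      rw [show W - a - 1 - j = W - (a + 1 + j) by ring]
    rw [e1, e2]
  have h2 : NN q a b z X (S + 1) - NN q a b z X S = ∑ j : ZMod p,
      (ind (off X (z j) < b * q) * (ind (sc q z j = S) - ind (sc q z j + a * q = S))) := by
    unfold NN
    rw [← Finset.sum_sub_distrib]
    apply Finset.sum_congr rfl
    intro j _
    unfold box
    rw [ite_ind, ite_ind, ind_and, ind_and, ← mul_sub]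
    congr 1
    have h3 := arc_step hM (sc q z j) S (d := a * q) (by omega) haq
    push_cast at h3
    exact h3
  have h3 : ns q a z (S + 1) - ns q a z S = ∑ j : ZMod p,
      (ind (sc q z j = S) - ind (sc q z j + a * q = S)) := by
    unfold ns
    rw [← Finset.sum_sub_distrib]
    apply Finset.sum_congr rfl
    intro j _
    rw [ite_ind, ite_ind]
    have h3 := arc_step hM (sc q z j) S (d := a * q) (by omega) haq
    push_cast at h3
    exact h3
  have h4 : T q a b z X (S + 1) - T q a b z X S =
      (∑ W : ZMod p, FF q a b z X W (S + 1) - ∑ W : ZMod p, FF q a b z X W S) -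
        p * (NN q a b z X (S + 1) - NN q a b z X S) + b * (ns q a z (S + 1) - ns q a z S) := by
    unfold T
    ring
  have h5 : T q a b z X (S + 1) - T q a b z X S = 0 := by
    rw [h4, h1, h2, h3, Finset.mul_sum, Finset.mul_sum, ← Finset.sum_sub_distrib,
      ← Finset.sum_add_distrib]
    apply Finset.sum_eq_zero
    intro j _
    ring
  linarith

theorem T_const (hP : Par p q a b) (z : ZMod p → ZMod (p * q)) (X S X' S' : ZMod (p * q)) :
    T q a b z X S = T q a b z X' S' := by
  rw [const_of_step (fun X => T q a b z X S) (fun X => T_x hP z X S) X X']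
  exact const_of_step (fun S => T q a b z X' S) (fun S => T_s hP z X' S) S S'

theorem sum_le_p {f : ZMod p → ℤ} (h : ∀ W, |f W| ≤ 1) :
    ∑ W : ZMod p, f W ≤ p ∧ -(p : ℤ) ≤ ∑ W : ZMod p, f W := by
  constructor
  · have h1 : ∑ W : ZMod p, f W ≤ ∑ _W : ZMod p, (1 : ℤ) :=
      Finset.sum_le_sum (fun W _ => (abs_le.1 (h W)).2)
    rw [Finset.sum_const, Finset.card_univ, ZMod.card, nsmul_eq_mul, mul_one] at h1
    exact h1
  · have h1 : ∑ _W : ZMod p, (-1 : ℤ) ≤ ∑ W : ZMod p, f W :=
      Finset.sum_le_sum (fun W _ => (abs_le.1 (h W)).1)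
    rw [Finset.sum_const, Finset.card_univ, ZMod.card, nsmul_eq_mul] at h1
    linarith

/-- comparison of two points: `FF ≤ 1` at the first and `FF ≥ -1` at the second -/
theorem cmp (hP : Par p q a b) (z : ZMod p → ZMod (p * q)) (X₁ S₁ X₂ S₂ : ZMod (p * q))
    (h1 : ∀ W, |FF q a b z X₁ W S₁| ≤ 1) (h2 : ∀ W, |FF q a b z X₂ W S₂| ≤ 1)
    (n1 : 2 ≤ NN q a b z X₁ S₁) (n2 : NN q a b z X₂ S₂ ≤ 0) :
    a * nz q b z X₂ + b * ns q a z S₂ ≤ a * nz q b z X₁ + b * ns q a z S₁ := by
  have h := T_const hP z X₁ S₁ X₂ S₂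
  have g1 := (sum_le_p h1).1
  have g2 := (sum_le_p h2).2
  have hp : (0 : ℤ) ≤ p := by positivity
  have e1 : (p : ℤ) * 2 ≤ p * NN q a b z X₁ S₁ := mul_le_mul_of_nonneg_left n1 hp
  have e2 : (p : ℤ) * NN q a b z X₂ S₂ ≤ p * 0 := mul_le_mul_of_nonneg_left n2 hp
  unfold T at h
  linarith

end

end Helper11.AV
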